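import Mathlib

/-! Project SM (helper55), job EULER: the Euler derivation and Krull's intersection theorem. -/

set_option autoImplicit false

open IsLocalRing

namespace Pool.Agent.Q198.SM

theorem euler_core {k O : Type} [Field k] [CharZero k] [CommRing O] [IsLocalRing O]
    [IsNoetherianRing O] [Algebra k O] {ι : Type} [Fintype ι] (ξ : ι → Derivation k O O)
    (t : ι → O) (J : Ideal O) (hJ : J ≤ maximalIdeal O) (ht : ∀ i, t i ∈ maximalIdeal O)
    (hξ : ∀ i, ∀ j ∈ J, ξ i j ∈ J)
    (hE : ∀ y ∈ maximalIdeal O, y - ∑ i, t i * ξ i y ∈ J ⊔ maximalIdeal O ^ 2)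
    (x : O) (hx : x ∈ maximalIdeal O) (hxJ : ∀ i, ξ i x ∈ J) : x ∈ J := by
  classical
  set n := maximalIdeal O with hn
  -- the Euler derivation
  obtain ⟨E, hEa⟩ : ∃ E : O → O, ∀ y, E y = ∑ i, t i * ξ i y := ⟨_, fun _ => rfl⟩
  have hEmul : ∀ a b, E (a * b) = a * E b + b * E a := by
    intro a b
    rw [hEa, hEa, hEa, Finset.mul_sum, Finset.mul_sum, ← Finset.sum_add_distrib]
    refine Finset.sum_congr rfl fun i _ => ?_
    rw [Derivation.leibniz]
    simp only [smul_eq_mul]
    ring
  have hEadd : ∀ a b, E (a + b) = E a + E b := by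
    intro a b
    rw [hEa, hEa, hEa, ← Finset.sum_add_distrib]
    refine Finset.sum_congr rfl fun i _ => ?_
    rw [map_add, mul_add]
  have hEJ : ∀ j ∈ J, E j ∈ J := by
    intro j hj
    rw [hEa]
    exact Ideal.sum_mem _ fun i _ => Ideal.mul_mem_left _ _ (hξ i j hj)
  have hEn : ∀ y, E y ∈ n := by
    intro y
    rw [hEa]
    exact Ideal.sum_mem _ fun i _ => Ideal.mul_mem_right _ _ (ht i)
  -- step 1
  have h1 : ∀ s : ℕ, ∀ y ∈ n ^ s, E y - (s : O) * y ∈ J ⊔ n ^ (s + 1) := by
    intro s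
    induction s with
    | zero =>
      intro y _
      simp only [Nat.cast_zero, zero_mul, sub_zero, zero_add, pow_one]
      exact Ideal.mem_sup_right (hEn y)
    | succ s ih =>
      intro y hy
      rw [pow_succ'] at hy
      refine Submodule.mul_induction_on hy (fun a ha b hb => ?_) (fun a b ha hb => ?_)
      · have e : E (a * b) - ((s + 1 : ℕ) : O) * (a * b) =
            a * (E b - (s : O) * b) + b * (E a - a) := by
          rw [hEmul]
          push_cast
          ring
        rw [e]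
        have h2 := ih b hb
        have h3 : E a - a ∈ J ⊔ n ^ 2 := by
          have := hE a ha
          rw [← hEa] at this
          have h4 := neg_mem this
          rwa [neg_sub] at h4
        refine add_mem ?_ ?_
        · have h5 : a * (E b - (s : O) * b) ∈ n * (J ⊔ n ^ (s + 1)) := Ideal.mul_mem_mul ha h2
          rw [Ideal.mul_sup] at h5
          have h6 : n * J ⊔ n * n ^ (s + 1) ≤ J ⊔ n ^ (s + 1 + 1) :=
            sup_le_sup Ideal.mul_le_right (le_of_eq (pow_succ' n (s + 1)).symm)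
          exact h6 h5
        · have h5 : b * (E a - a) ∈ n ^ s * (J ⊔ n ^ 2) := Ideal.mul_mem_mul hb h3
          rw [Ideal.mul_sup] at h5
          have h6 : n ^ s * J ⊔ n ^ s * n ^ 2 ≤ J ⊔ n ^ (s + 1 + 1) :=
            sup_le_sup Ideal.mul_le_right (le_of_eq (pow_add n s 2).symm)
          exact h6 h5
      · have e : E (a + b) - ((s + 1 : ℕ) : O) * (a + b) =
            (E a - ((s + 1 : ℕ) : O) * a) + (E b - ((s + 1 : ℕ) : O) * b) := by
          rw [hEadd]; ring
        rw [e]
        exact add_mem ha hb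
  -- step 2
  have h2 : ∀ s : ℕ, x ∈ J ⊔ n ^ (s + 1) := by
    intro s
    induction s with
    | zero =>
      rw [zero_add, pow_one]
      exact Ideal.mem_sup_right hx
    | succ s ih =>
      obtain ⟨j, hj, y, hy, hjy⟩ := Submodule.mem_sup.1 ih
      have h3 : E x ∈ J := by
        rw [hEa]
        exact Ideal.sum_mem _ fun i _ => Ideal.mul_mem_left _ _ (hxJ i)
      have h4 : E y ∈ J := by
        have e : E y = E x - E j := by rw [← hjy, hEadd]; ring
        rw [e]
        exact sub_mem h3 (hEJ j hj)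
      have h5 := h1 (s + 1) y hy
      have h6 : ((s + 1 : ℕ) : O) * y ∈ J ⊔ n ^ (s + 1 + 1) := by
        have e : ((s + 1 : ℕ) : O) * y = E y - (E y - ((s + 1 : ℕ) : O) * y) := by ring
        rw [e]
        exact sub_mem (Ideal.mem_sup_left h4) h5
      have hu : IsUnit ((s + 1 : ℕ) : O) := by
        have h7 : ((s + 1 : ℕ) : O) = algebraMap k O ((s + 1 : ℕ) : k) := by simp
        rw [h7]
        refine IsUnit.map _ (IsUnit.mk0 _ ?_)
        exact_mod_cast Nat.succ_ne_zero s
      have h8 : y ∈ J ⊔ n ^ (s + 1 + 1) := (Ideal.unit_mul_mem_iff_mem _ hu).1 h6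
      rw [← hjy]
      exact add_mem (Ideal.mem_sup_left hj) h8
  -- step 3
  have hJtop : J ≠ ⊤ := by
    intro h
    rw [h, top_le_iff] at hJ
    exact (maximalIdeal.isMaximal O).ne_top hJ
  have : Nontrivial (O ⧸ J) := Ideal.Quotient.nontrivial_iff.2 hJtop
  have hloc : IsLocalRing (O ⧸ J) := IsLocalRing.of_surjective' (Ideal.Quotient.mk J)
    Ideal.Quotient.mk_surjective
  have h3 := Ideal.iInf_pow_eq_bot_of_isLocalRing (maximalIdeal (O ⧸ J))
    (maximalIdeal.isMaximal _).ne_top
  have h4 : Ideal.Quotient.mk J x ∈ ⨅ i : ℕ, maximalIdeal (O ⧸ J) ^ i := by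
    rw [Ideal.mem_iInf]
    intro i
    obtain ⟨j, hj, y, hy, hjy⟩ := Submodule.mem_sup.1 (h2 i)
    rw [← hjy, map_add, Ideal.Quotient.eq_zero_iff_mem.2 hj, zero_add]
    have h5 : Ideal.Quotient.mk J y ∈ (n ^ (i + 1)).map (Ideal.Quotient.mk J) :=
      Ideal.mem_map_of_mem _ hy
    rw [Ideal.map_pow] at h5
    have h6 : n.map (Ideal.Quotient.mk J) ≤ maximalIdeal (O ⧸ J) := by
      rw [Ideal.map_le_iff_le_comap]
      intro z hz
      rw [Ideal.mem_comap, mem_maximalIdeal, mem_nonunits_iff]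
      intro hu
      obtain ⟨w', hw'⟩ := hu.exists_right_inv
      obtain ⟨w, rfl⟩ := Ideal.Quotient.mk_surjective w'
      rw [← map_mul, ← map_one (Ideal.Quotient.mk J), Ideal.Quotient.eq] at hw'
      have h7 : (1 : O) ∈ n := by
        have e : (1 : O) = z * w - (z * w - 1) := by ring
        rw [e]
        exact sub_mem (Ideal.mul_mem_right _ _ hz) (hJ hw')
      exact (Ideal.ne_top_iff_one n).1 (maximalIdeal.isMaximal O).ne_top h7
    exact (Ideal.pow_le_pow_right (Nat.le_succ i)) ((Ideal.pow_right_mono h6 (i + 1)) h5)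
  rw [h3, Ideal.mem_bot, Ideal.Quotient.eq_zero_iff_mem] at h4
  exact h4

end Pool.Agent.Q198.SM
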