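import Mathlib

/-! Project SM (helper55), job LOW: dimension of a local homomorphism with generated fibre. -/

set_option autoImplicit false

open IsLocalRing

namespace Pool.Agent.Q198.SM

theorem low_core {R O : Type} [CommRing R] [IsLocalRing R] [IsNoetherianRing R] [CommRing O]
    [IsLocalRing O] [IsNoetherianRing O] (φ : R →+* O)
    (hφ : ∀ x ∈ maximalIdeal R, φ x ∈ maximalIdeal O)
    {ι : Type} [Fintype ι] (t : ι → O)
    (hgen : maximalIdeal O = (maximalIdeal R).map φ ⊔ Ideal.span (Set.range t)) :
    ringKrullDim O ≤ ringKrullDim R + (Fintype.card ι : ℕ) := by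
  classical
  let _ : Algebra R O := φ.toAlgebra
  have hover : (maximalIdeal O).LiesOver (maximalIdeal R) := by
    constructor
    refine le_antisymm (fun x hx => ?_) (fun x hx => ?_)
    · exact hφ x hx
    · by_contra hx'
      have hu : IsUnit x := by
        rw [mem_maximalIdeal, mem_nonunits_iff, not_not] at hx'
        exact hx'
      have h1 : φ x ∈ maximalIdeal O := hx
      rw [mem_maximalIdeal, mem_nonunits_iff] at h1
      exact h1 (hu.map φ)
  have h1 := Ideal.height_le_height_add_of_liesOver (maximalIdeal R) (maximalIdeal O)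
  set I : Ideal O := (maximalIdeal R).map (algebraMap R O) with hI
  have hIle : I ≤ maximalIdeal O := by rw [hgen]; exact le_sup_left
  set Q : Ideal (O ⧸ I) := (maximalIdeal O).map (Ideal.Quotient.mk I) with hQ
  have hQgen : Q = Ideal.span (Set.range fun i => Ideal.Quotient.mk I (t i)) := by
    rw [hQ, hgen, Ideal.map_sup]
    have e1 : Ideal.map (Ideal.Quotient.mk I) (Ideal.map φ (maximalIdeal R)) = ⊥ := by
      have e2 : Ideal.map φ (maximalIdeal R) = I := rfl
      rw [e2, Ideal.map_quotient_self]
    rw [e1, bot_sup_eq, Ideal.map_span, ← Set.range_comp]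
    rfl
  have hQprime : Q.IsPrime := by
    rw [hQ]
    exact Ideal.map_isPrime_of_surjective Ideal.Quotient.mk_surjective (by
      rw [Ideal.mk_ker]; exact hIle)
  have h2 : Q.height ≤ (Fintype.card ι : ℕ) := by
    have hmin : Q ∈ Q.minimalPrimes := by
      rw [Ideal.minimalPrimes_eq_subsingleton_self]
      rfl
    have hset : (Finset.univ.image fun i => Ideal.Quotient.mk I (t i) : Finset (O ⧸ I)).card ≤
        Fintype.card ι := by
      refine Finset.card_image_le.trans ?_
      rw [Finset.card_univ]
    have h4 : Q.height ≤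
        ((Finset.univ.image fun i => Ideal.Quotient.mk I (t i) : Finset (O ⧸ I)).card : ℕ∞) := by
      refine Ideal.height_le_card_of_mem_minimalPrimes_span_finset ?_
      rw [Finset.coe_image, Finset.coe_univ, Set.image_univ, ← hQgen]
      exact hmin
    exact h4.trans (by exact_mod_cast hset)
  have h3 : (maximalIdeal O).height ≤ (maximalIdeal R).height + (Fintype.card ι : ℕ) :=
    h1.trans (add_le_add le_rfl h2)
  rw [← IsLocalRing.maximalIdeal_height_eq_ringKrullDim,
    ← IsLocalRing.maximalIdeal_height_eq_ringKrullDim]
  exact_mod_cast h3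

end Pool.Agent.Q198.SM
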