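import Pool.Agent.Q55.SM.Stm2
import Pool.Agent.Q198.SM.EulerCore
import Pool.Agent.Q198.SM.LowCore

/-! Project SM (helper55), jobs EULER and LOW. -/

set_option autoImplicit false

namespace Pool.Agent.Q198.SM

theorem euler : Pool.Agent.Q55.SM.S_Euler := by
  intro k O _ _ _ _ _ _ ι _ ξ t J hJ ht hξ hE x hx hxJ
  exact euler_core ξ t J hJ ht hξ hE x hx hxJ

theorem low : Pool.Agent.Q55.SM.S_Low := by
  intro R O _ _ _ _ _ _ φ hφ ι _ t hgen
  exact low_core φ hφ t hgen

end Pool.Agent.Q198.SM
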